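import Mathlib

set_option autoImplicit false

/-! Definitions for the statement about isometric Cayley graphs and property RD. -/

namespace RDQI

/-- Word length of `x` for the generating set `S` (meant for `S` symmetric and generating). -/
noncomputable def wl {G : Type} [Group G] (S : Finset G) (x : G) : ℕ :=
  sInf {n : ℕ | ∃ l : List G, l.length = n ∧ (∀ s ∈ l, s ∈ S) ∧ l.prod = x}

/-- The weighted norm `‖f‖_{2,s}`. -/
noncomputable def wnorm {G : Type} [Group G] (S : Finset G) (s : ℝ) (f : G →₀ ℂ) : ℝ :=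
  Real.sqrt (∑ x ∈ f.support, ‖f x‖ ^ 2 * (1 + (wl S x : ℝ)) ^ (2 * s))

/-- Convolution `f * ξ` of a finitely supported `f` with an arbitrary function `ξ`. -/
noncomputable def conv {G : Type} [Group G] (f : G →₀ ℂ) (ξ : G → ℂ) (x : G) : ℂ :=
  ∑ y ∈ f.support, f y * ξ (y⁻¹ * x)

/-- Left convolution by `f` maps `ℓ²(G)` to `ℓ²(G)` with operator norm at most `c`, `c ≥ 0`. -/
def OpLe {G : Type} [Group G] (f : G →₀ ℂ) (c : ℝ) : Prop :=
  0 ≤ c ∧ ∀ ξ : G → ℂ, Summable (fun x => ‖ξ x‖ ^ 2) →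
    Summable (fun x => ‖conv f ξ x‖ ^ 2) ∧
    Real.sqrt (∑' x, ‖conv f ξ x‖ ^ 2) ≤ c * Real.sqrt (∑' x, ‖ξ x‖ ^ 2)

/-- Property RD for the length function of the symmetric generating set `S`. -/
def HasRD {G : Type} [Group G] (S : Finset G) : Prop :=
  ∃ C s : ℝ, 0 ≤ s ∧ ∀ f : G →₀ ℂ, OpLe f (C * wnorm S s f)

/-- The Cayley graph of `G` with respect to the symmetric set `S`. -/
def cay {G : Type} [Group G] (S : Finset G) : SimpleGraph G :=
  SimpleGraph.fromRel (fun x y => x⁻¹ * y ∈ S)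

end RDQI
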