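import Mathlib

set_option autoImplicit false

/-! Rapid decay for (subgroups of) products of free groups, by decomposing convolution
according to the amount of cancellation. -/

namespace RDQI

section abstractRD

variable {G : Type*} [Group G] {I : Type*} [DecidableEq I] [DecidableEq G]

open Classical in
/-- Convolution bound from a decomposition into types. -/
theorem conv_le_of_types (τ : G → G → I)
    (hinj : ∀ (i : I) (z s x x' : G), τ z (z⁻¹ * x) = i → τ z (z⁻¹ * x') = i →
      τ (x * s⁻¹) s = i → τ (x' * s⁻¹) s = i → x = x')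
    (f g : G →₀ ℂ) (J : Finset I) (hJ : ∀ z ∈ f.support, ∀ s, τ z s ∈ J) (U : Finset G) :
    ∑ x ∈ U, ‖∑ y ∈ f.support, f y * g (y⁻¹ * x)‖ ^ 2 ≤
      (J.card : ℝ) ^ 2 * (∑ y ∈ f.support, ‖f y‖ ^ 2) * (∑ z ∈ g.support, ‖g z‖ ^ 2) := by
  -- pointwise estimate
  have key : ∀ x : G, ‖∑ y ∈ f.support, f y * g (y⁻¹ * x)‖ ^ 2 ≤
      (J.card : ℝ) * ∑ i ∈ J,
        (∑ y ∈ f.support.filter (fun y => τ y (y⁻¹ * x) = i), ‖f y‖ ^ 2) *
        (∑ y ∈ f.support.filter (fun y => τ y (y⁻¹ * x) = i), ‖g (y⁻¹ * x)‖ ^ 2) := by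
    intro x
    have h1 : ‖∑ y ∈ f.support, f y * g (y⁻¹ * x)‖ ≤
        ∑ i ∈ J, ∑ y ∈ f.support.filter (fun y => τ y (y⁻¹ * x) = i), ‖f y‖ * ‖g (y⁻¹ * x)‖ := by
      rw [Finset.sum_fiberwise_of_maps_to (fun y hy => hJ y hy _)]
      refine (norm_sum_le _ _).trans (le_of_eq ?_)
      exact Finset.sum_congr rfl (fun y _ => norm_mul _ _)
    calc ‖∑ y ∈ f.support, f y * g (y⁻¹ * x)‖ ^ 2
        ≤ (∑ i ∈ J, ∑ y ∈ f.support.filter (fun y => τ y (y⁻¹ * x) = i),
            ‖f y‖ * ‖g (y⁻¹ * x)‖) ^ 2 := by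
          exact pow_le_pow_left₀ (norm_nonneg _) h1 2
      _ ≤ (J.card : ℝ) * ∑ i ∈ J, (∑ y ∈ f.support.filter (fun y => τ y (y⁻¹ * x) = i),
            ‖f y‖ * ‖g (y⁻¹ * x)‖) ^ 2 := sq_sum_le_card_mul_sum_sq
      _ ≤ _ := by
          refine mul_le_mul_of_nonneg_left ?_ (Nat.cast_nonneg _)
          refine Finset.sum_le_sum (fun i _ => ?_)
          exact Finset.sum_mul_sq_le_sq_mul_sq _ _ _
  -- for each type, the total is bounded
  have main : ∀ i : I, ∑ x ∈ U,
        (∑ y ∈ f.support.filter (fun y => τ y (y⁻¹ * x) = i), ‖f y‖ ^ 2) *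
        (∑ y ∈ f.support.filter (fun y => τ y (y⁻¹ * x) = i), ‖g (y⁻¹ * x)‖ ^ 2) ≤
        (∑ y ∈ f.support, ‖f y‖ ^ 2) * (∑ z ∈ g.support, ‖g z‖ ^ 2) := by
    intro i
    -- the set of triples
    have h2 : ∀ x ∈ U,
        (∑ y ∈ f.support.filter (fun y => τ y (y⁻¹ * x) = i), ‖f y‖ ^ 2) *
        (∑ y ∈ f.support.filter (fun y => τ y (y⁻¹ * x) = i), ‖g (y⁻¹ * x)‖ ^ 2) ≤
        ∑ p ∈ (f.support ×ˢ g.support).filter
            (fun p => τ p.1 (p.1⁻¹ * x) = i ∧ τ (x * p.2⁻¹) p.2 = i),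
          ‖f p.1‖ ^ 2 * ‖g p.2‖ ^ 2 := by
      intro x _
      have h3 : (∑ y ∈ f.support.filter (fun y => τ y (y⁻¹ * x) = i), ‖g (y⁻¹ * x)‖ ^ 2) ≤
          ∑ s ∈ g.support.filter (fun s => τ (x * s⁻¹) s = i), ‖g s‖ ^ 2 := by
        rw [← Finset.sum_filter_add_sum_filter_not
          (f.support.filter (fun y => τ y (y⁻¹ * x) = i)) (fun y => y⁻¹ * x ∈ g.support)]
        have h4 : ∑ y ∈ (f.support.filter (fun y => τ y (y⁻¹ * x) = i)).filter
            (fun y => ¬ (y⁻¹ * x ∈ g.support)), ‖g (y⁻¹ * x)‖ ^ 2 = 0 := by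
          refine Finset.sum_eq_zero (fun y hy => ?_)
          have := (Finset.mem_filter.1 hy).2
          rw [Finsupp.notMem_support_iff] at this
          rw [this]; simp
        rw [h4, add_zero]
        have h5 : ∑ y ∈ (f.support.filter (fun y => τ y (y⁻¹ * x) = i)).filter
            (fun y => (y⁻¹ * x ∈ g.support)), ‖g (y⁻¹ * x)‖ ^ 2 =
            ∑ s ∈ ((f.support.filter (fun y => τ y (y⁻¹ * x) = i)).filter
            (fun y => (y⁻¹ * x ∈ g.support))).image (fun y => y⁻¹ * x), ‖g s‖ ^ 2 := by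
          rw [Finset.sum_image]
          intro a _ b _ hab
          simpa using hab
        rw [h5]
        refine Finset.sum_le_sum_of_subset_of_nonneg ?_ (fun _ _ _ => by positivity)
        intro s hs
        rw [Finset.mem_image] at hs
        obtain ⟨y, hy, rfl⟩ := hs
        rw [Finset.mem_filter, Finset.mem_filter] at hy
        rw [Finset.mem_filter]
        refine ⟨hy.2, ?_⟩
        have : x * (y⁻¹ * x)⁻¹ = y := by group
        rw [this]; exact hy.1.2
      calc _ ≤ (∑ y ∈ f.support.filter (fun y => τ y (y⁻¹ * x) = i), ‖f y‖ ^ 2) *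
            ∑ s ∈ g.support.filter (fun s => τ (x * s⁻¹) s = i), ‖g s‖ ^ 2 :=
            mul_le_mul_of_nonneg_left h3 (Finset.sum_nonneg (fun _ _ => by positivity))
        _ = ∑ p ∈ (f.support.filter (fun y => τ y (y⁻¹ * x) = i)) ×ˢ
              (g.support.filter (fun s => τ (x * s⁻¹) s = i)), ‖f p.1‖ ^ 2 * ‖g p.2‖ ^ 2 := by
            rw [Finset.sum_product, Finset.sum_mul_sum]
        _ = _ := by
            rw [← Finset.filter_product]
    refine (Finset.sum_le_sum h2).trans ?_
    -- exchange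
    have h6 : ∑ x ∈ U, ∑ p ∈ (f.support ×ˢ g.support).filter
            (fun p => τ p.1 (p.1⁻¹ * x) = i ∧ τ (x * p.2⁻¹) p.2 = i),
          ‖f p.1‖ ^ 2 * ‖g p.2‖ ^ 2 =
        ∑ p ∈ f.support ×ˢ g.support, ∑ x ∈ U.filter
            (fun x => τ p.1 (p.1⁻¹ * x) = i ∧ τ (x * p.2⁻¹) p.2 = i),
          ‖f p.1‖ ^ 2 * ‖g p.2‖ ^ 2 := by
      simp_rw [Finset.sum_filter]
      rw [Finset.sum_comm]
    rw [h6, Finset.sum_mul_sum, ← Finset.sum_product']
    refine Finset.sum_le_sum (fun p _ => ?_)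
    rw [Finset.sum_const, nsmul_eq_mul]
    have hcard : (U.filter
            (fun x => τ p.1 (p.1⁻¹ * x) = i ∧ τ (x * p.2⁻¹) p.2 = i)).card ≤ 1 := by
      rw [Finset.card_le_one]
      intro x hx x' hx'
      rw [Finset.mem_filter] at hx hx'
      exact hinj i p.1 p.2 x x' hx.2.1 hx'.2.1 hx.2.2 hx'.2.2
    have : ((U.filter
            (fun x => τ p.1 (p.1⁻¹ * x) = i ∧ τ (x * p.2⁻¹) p.2 = i)).card : ℝ) ≤ 1 := by
      exact_mod_cast hcard
    calc _ ≤ 1 * (‖f p.1‖ ^ 2 * ‖g p.2‖ ^ 2) :=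
          mul_le_mul_of_nonneg_right this (by positivity)
      _ = _ := by ring
  calc ∑ x ∈ U, ‖∑ y ∈ f.support, f y * g (y⁻¹ * x)‖ ^ 2
      ≤ ∑ x ∈ U, (J.card : ℝ) * ∑ i ∈ J,
        (∑ y ∈ f.support.filter (fun y => τ y (y⁻¹ * x) = i), ‖f y‖ ^ 2) *
        (∑ y ∈ f.support.filter (fun y => τ y (y⁻¹ * x) = i), ‖g (y⁻¹ * x)‖ ^ 2) :=
        Finset.sum_le_sum (fun x _ => key x)
    _ = (J.card : ℝ) * ∑ i ∈ J, ∑ x ∈ U,
        (∑ y ∈ f.support.filter (fun y => τ y (y⁻¹ * x) = i), ‖f y‖ ^ 2) *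
        (∑ y ∈ f.support.filter (fun y => τ y (y⁻¹ * x) = i), ‖g (y⁻¹ * x)‖ ^ 2) := by
        rw [← Finset.mul_sum, Finset.sum_comm]
    _ ≤ (J.card : ℝ) * ∑ _i ∈ J,
        (∑ y ∈ f.support, ‖f y‖ ^ 2) * (∑ z ∈ g.support, ‖g z‖ ^ 2) := by
        refine mul_le_mul_of_nonneg_left ?_ (Nat.cast_nonneg _)
        exact Finset.sum_le_sum (fun i _ => main i)
    _ = _ := by
        rw [Finset.sum_const, nsmul_eq_mul]; ring

end abstractRD

section free

variable {α : Type*} [DecidableEq α]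

open FreeGroup

theorem reduce_append_exists (L₁ L₂ : List (α × Bool)) (h₁ : IsReduced L₁)
    (h₂ : reduce L₂ = L₂) :
    ∃ l ≤ L₁.length, reduce (L₁ ++ L₂) = L₁.take (L₁.length - l) ++ L₂.drop l := by
  induction L₁ with
  | nil => exact ⟨0, le_rfl, by simp [h₂]⟩
  | cons a L₁ ih =>
    obtain ⟨l, hl, hr⟩ := ih (List.IsChain.tail h₁)
    have hcons : reduce (a :: L₁ ++ L₂) = List.casesOn (reduce (L₁ ++ L₂)) [a] fun hd tl =>
        if a.1 = hd.1 ∧ a.2 = not hd.2 then tl else a :: hd :: tl := by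
      rw [List.cons_append, reduce.cons]
    rcases Nat.lt_or_ge l L₁.length with hlt | hge
    · -- the head of the reduction is the head of `L₁`
      refine ⟨l, by simp; omega, ?_⟩
      rw [hcons, hr]
      cases L₁ with
      | nil => simp at hlt
      | cons b L =>
        have e : (b :: L).length - l = (L.length - l) + 1 := by
          simp at hlt ⊢; omega
        rw [e, List.take_succ_cons, List.cons_append]
        have hne : ¬ (a.1 = b.1 ∧ a.2 = not b.2) := by
          rintro ⟨h1, h2⟩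
          have := (isReduced_cons_cons.1 h₁).1 h1
          rw [this] at h2
          cases hb : b.2 <;> simp [hb] at h2
        have e2 : (a :: b :: L).length - l = (L.length - l) + 1 + 1 := by
          simp at hlt ⊢; omega
        rw [e2, List.take_succ_cons, List.take_succ_cons]
        simp [hne]
    · have hl' : l = L₁.length := le_antisymm hl hge
      have hz : L₁.length - l = 0 := by omega
      rw [hz, List.take_zero, List.nil_append] at hr
      rw [hcons, hr]
      cases hd : L₂.drop l with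
      | nil =>
        refine ⟨l, by simp; omega, ?_⟩
        have e : (a :: L₁).length - l = 1 := by simp; omega
        rw [e, hd]; simp
      | cons b t =>
        by_cases hc : a.1 = b.1 ∧ a.2 = not b.2
        · refine ⟨l + 1, by simp; omega, ?_⟩
          have e : (a :: L₁).length - (l + 1) = 0 := by simp; omega
          have ht : L₂.drop (l + 1) = t := by
            have : L₂.drop (l + 1) = (L₂.drop l).drop 1 := by
              rw [List.drop_drop]
            rw [this, hd]; rfl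
          rw [e, ht]; simp [hc]
        · refine ⟨l, by simp; omega, ?_⟩
          have e : (a :: L₁).length - l = 1 := by simp; omega
          rw [e, hd]; simp [hc]

theorem exists_cancel (z s : FreeGroup α) :
    ∃ l ≤ z.norm, (z * s).toWord = z.toWord.take (z.norm - l) ++ s.toWord.drop l := by
  obtain ⟨l, hl, h⟩ := reduce_append_exists z.toWord s.toWord isReduced_toWord (reduce_toWord s)
  exact ⟨l, hl, by rw [toWord_mul, h]; rfl⟩

/-- number of cancelled letters -/
noncomputable def canc (z s : FreeGroup α) : ℕ := Classical.choose (exists_cancel z s)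

theorem canc_le (z s : FreeGroup α) : canc z s ≤ z.norm :=
  (Classical.choose_spec (exists_cancel z s)).1

theorem canc_spec (z s : FreeGroup α) :
    (z * s).toWord = z.toWord.take (z.norm - canc z s) ++ s.toWord.drop (canc z s) :=
  (Classical.choose_spec (exists_cancel z s)).2

/-- the type of a product -/
noncomputable def ftype (z s : FreeGroup α) : ℕ × ℕ := (z.norm - canc z s, canc z s)

theorem ftype_mem (z s : FreeGroup α) (r : ℕ) (h : z.norm ≤ r) :
    ftype z s ∈ Finset.range (r + 1) ×ˢ Finset.range (r + 1) := by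
  have := canc_le z s
  simp only [ftype, Finset.mem_product, Finset.mem_range]
  omega

theorem ftype_spec {z s : FreeGroup α} {i : ℕ × ℕ} (h : ftype z s = i) :
    (z * s).toWord.take i.1 = z.toWord.take i.1 ∧ (z * s).toWord.drop i.1 = s.toWord.drop i.2 := by
  subst h
  have hc := canc_le z s
  have hlen : (z.toWord.take (z.norm - canc z s)).length = z.norm - canc z s := by
    rw [List.length_take]
    have : z.toWord.length = z.norm := rfl
    omega
  constructor
  · simp only [ftype]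
    rw [canc_spec z s]
    rw [List.take_append_of_le_length (by rw [hlen])]
    rw [List.take_take, min_self]
  · simp only [ftype]
    rw [canc_spec z s]
    exact List.drop_left' hlen

theorem ftype_inj (i : ℕ × ℕ) (z s x x' : FreeGroup α) (h1 : ftype z (z⁻¹ * x) = i)
    (h2 : ftype z (z⁻¹ * x') = i) (h3 : ftype (x * s⁻¹) s = i) (h4 : ftype (x' * s⁻¹) s = i) :
    x = x' := by
  have a1 := (ftype_spec h1).1
  have a2 := (ftype_spec h2).1
  have a3 := (ftype_spec h3).2
  have a4 := (ftype_spec h4).2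
  rw [mul_inv_cancel_left] at a1 a2
  rw [inv_mul_cancel_right] at a3 a4
  apply toWord_injective
  rw [← List.take_append_drop i.1 x.toWord, ← List.take_append_drop i.1 x'.toWord,
    a1, a2, a3, a4]

end free

end RDQI
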