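import Pool.Agent.MP_fb096d_an.Main
import Pool.Agent.MP_fb096d_an.Defs

set_option autoImplicit false

namespace RDQI

open FreeGroup

section general

variable {G : Type} [Group G]

theorem wl_le {S : Finset G} (hS : ∀ s ∈ S, s⁻¹ ∈ S) {r : ℕ} {x : G} (hx : Bl S r x) :
    wl S x ≤ r := by
  obtain ⟨l, h1, h2, h3⟩ := hx
  refine le_trans (Nat.sInf_le ⟨l, rfl, ?_, h3⟩) h1
  intro s hs
  rcases h2 s hs with h | h
  · exact h
  · simpa using hS _ h

theorem Bl_wl {S : Finset G} (hS : ∀ s ∈ S, s⁻¹ ∈ S) (hgen : Subgroup.closure (S : Set G) = ⊤)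
    (x : G) : Bl S (wl S x) x := by
  have hne : {n : ℕ | ∃ l : List G, l.length = n ∧ (∀ s ∈ l, s ∈ S) ∧ l.prod = x}.Nonempty := by
    have hx : x ∈ (Subgroup.closure (S : Set G)).toSubmonoid := by rw [hgen]; trivial
    rw [Subgroup.closure_toSubmonoid] at hx
    obtain ⟨l, hl, hp⟩ := Submonoid.exists_list_of_mem_closure hx
    refine ⟨l.length, l, rfl, ?_, hp⟩
    intro s hs
    rcases hl s hs with h | h
    · exact h
    · simpa using hS _ (Set.mem_inv.1 h)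
  obtain ⟨l, h1, h2, h3⟩ := Nat.sInf_mem hne
  exact ⟨l, h1.le, fun s hs => Or.inl (h2 s hs), h3⟩

theorem sum_inv_sq (N : ℕ) :
    ∑ n ∈ Finset.range N, (1 / ((n : ℝ) + 1)) ^ 2 ≤ 2 - 1 / (N : ℝ) := by
  induction N with
  | zero => norm_num
  | succ N ih =>
    rw [Finset.sum_range_succ]
    rcases Nat.eq_zero_or_pos N with rfl | hN
    · norm_num
    · have hN' : (0 : ℝ) < (N : ℝ) := by exact_mod_cast hN
      have key : (1 / ((N : ℝ) + 1)) ^ 2 ≤ 1 / (N : ℝ) - 1 / ((N : ℝ) + 1) := by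
        rw [div_sub_div _ _ hN'.ne' (by positivity), one_div_pow, div_le_div_iff₀ (by positivity)
          (by positivity)]
        nlinarith
      push_cast
      linarith

/-- From the polynomial bound on balls to the bound by a weighted norm (finitely supported). -/
theorem weighted_of_ball {S : Finset G} (hS : ∀ s ∈ S, s⁻¹ ∈ S)
    (hgen : Subgroup.closure (S : Set G) = ⊤) (k : ℕ)
    (hb : ∀ (r : ℕ) (f g : G →₀ ℂ), (∀ x ∈ f.support, Bl S r x) → ∀ U : Finset G,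
      ∑ x ∈ U, ‖∑ y ∈ f.support, f y * g (y⁻¹ * x)‖ ^ 2 ≤
      1 * ((r : ℝ) + 1) ^ k * (∑ y ∈ f.support, ‖f y‖ ^ 2) * (∑ z ∈ g.support, ‖g z‖ ^ 2))
    (f g : G →₀ ℂ) (U : Finset G) :
    ∑ x ∈ U, ‖∑ y ∈ f.support, f y * g (y⁻¹ * x)‖ ^ 2 ≤
      2 * (∑ x ∈ f.support, ‖f x‖ ^ 2 * (1 + (wl S x : ℝ)) ^ (k + 2)) *
        (∑ z ∈ g.support, ‖g z‖ ^ 2) := by
  classical
  -- the spheres
  set N : ℕ := f.support.sup (fun x => wl S x) + 1 with hN
  have hmaps : ∀ y ∈ f.support, wl S y ∈ Finset.range N := by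
    intro y hy
    rw [Finset.mem_range, hN]
    exact Nat.lt_succ_of_le (Finset.le_sup (f := fun x => wl S x) hy)
  set fn : ℕ → G →₀ ℂ := fun n => f.filter (fun x => wl S x = n) with hfn
  have hfs : ∀ n, (fn n).support = f.support.filter (fun x => wl S x = n) := by
    intro n; rw [hfn]; exact Finsupp.support_filter _ _
  have hfv : ∀ n, ∀ y ∈ (fn n).support, fn n y = f y := by
    intro n y hy
    rw [hfs, Finset.mem_filter] at hy
    rw [hfn]
    exact Finsupp.filter_apply_pos _ _ hy.2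
  have hsplit : ∀ x, ∑ y ∈ f.support, f y * g (y⁻¹ * x) =
      ∑ n ∈ Finset.range N, ∑ y ∈ (fn n).support, fn n y * g (y⁻¹ * x) := by
    intro x
    rw [← Finset.sum_fiberwise_of_maps_to hmaps]
    refine Finset.sum_congr rfl (fun n _ => ?_)
    rw [← hfs n]
    refine Finset.sum_congr rfl (fun y hy => ?_)
    rw [hfv n y hy]
  have hpt : ∀ x, ‖∑ y ∈ f.support, f y * g (y⁻¹ * x)‖ ^ 2 ≤
      2 * ∑ n ∈ Finset.range N, ((n : ℝ) + 1) ^ 2 *
        ‖∑ y ∈ (fn n).support, fn n y * g (y⁻¹ * x)‖ ^ 2 := by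
    intro x
    have h1 : ‖∑ y ∈ f.support, f y * g (y⁻¹ * x)‖ ≤
        ∑ n ∈ Finset.range N, (1 / ((n : ℝ) + 1)) *
          (((n : ℝ) + 1) * ‖∑ y ∈ (fn n).support, fn n y * g (y⁻¹ * x)‖) := by
      rw [hsplit]
      refine (norm_sum_le _ _).trans (le_of_eq ?_)
      refine Finset.sum_congr rfl (fun n _ => ?_)
      have : ((n : ℝ) + 1) ≠ 0 := by positivity
      field_simp
    calc _ ≤ (∑ n ∈ Finset.range N, (1 / ((n : ℝ) + 1)) *
          (((n : ℝ) + 1) * ‖∑ y ∈ (fn n).support, fn n y * g (y⁻¹ * x)‖)) ^ 2 :=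
          pow_le_pow_left₀ (norm_nonneg _) h1 2
      _ ≤ (∑ n ∈ Finset.range N, (1 / ((n : ℝ) + 1)) ^ 2) *
          ∑ n ∈ Finset.range N,
            (((n : ℝ) + 1) * ‖∑ y ∈ (fn n).support, fn n y * g (y⁻¹ * x)‖) ^ 2 :=
          Finset.sum_mul_sq_le_sq_mul_sq _ _ _
      _ ≤ 2 * ∑ n ∈ Finset.range N,
            (((n : ℝ) + 1) * ‖∑ y ∈ (fn n).support, fn n y * g (y⁻¹ * x)‖) ^ 2 := by
          refine mul_le_mul_of_nonneg_right ?_ (Finset.sum_nonneg (fun _ _ => by positivity))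
          have := sum_inv_sq N
          have h3 : (0 : ℝ) ≤ 1 / (N : ℝ) := by positivity
          linarith
      _ = _ := by
          congr 1
          exact Finset.sum_congr rfl (fun n _ => by rw [mul_pow])
  calc ∑ x ∈ U, ‖∑ y ∈ f.support, f y * g (y⁻¹ * x)‖ ^ 2
      ≤ ∑ x ∈ U, 2 * ∑ n ∈ Finset.range N, ((n : ℝ) + 1) ^ 2 *
        ‖∑ y ∈ (fn n).support, fn n y * g (y⁻¹ * x)‖ ^ 2 := Finset.sum_le_sum (fun x _ => hpt x)
    _ = 2 * ∑ n ∈ Finset.range N, ((n : ℝ) + 1) ^ 2 *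
        ∑ x ∈ U, ‖∑ y ∈ (fn n).support, fn n y * g (y⁻¹ * x)‖ ^ 2 := by
        rw [← Finset.mul_sum, Finset.sum_comm]
        congr 1
        exact Finset.sum_congr rfl (fun n _ => by rw [Finset.mul_sum])
    _ ≤ 2 * ∑ n ∈ Finset.range N, ((n : ℝ) + 1) ^ 2 *
        (1 * ((n : ℝ) + 1) ^ k * (∑ y ∈ (fn n).support, ‖fn n y‖ ^ 2) *
          (∑ z ∈ g.support, ‖g z‖ ^ 2)) := by
        refine mul_le_mul_of_nonneg_left ?_ (by norm_num)
        refine Finset.sum_le_sum (fun n _ => ?_)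
        refine mul_le_mul_of_nonneg_left ?_ (by positivity)
        refine hb n (fn n) g ?_ U
        intro x hx
        rw [hfs, Finset.mem_filter] at hx
        have := Bl_wl hS hgen x
        rwa [hx.2] at this
    _ = 2 * (∑ n ∈ Finset.range N, ∑ y ∈ f.support.filter (fun x => wl S x = n),
          ‖f y‖ ^ 2 * (1 + (wl S y : ℝ)) ^ (k + 2)) * (∑ z ∈ g.support, ‖g z‖ ^ 2) := by
        rw [mul_assoc, Finset.sum_mul]
        congr 1
        refine Finset.sum_congr rfl (fun n _ => ?_)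
        have e1 : ∑ y ∈ (fn n).support, ‖fn n y‖ ^ 2 =
            ∑ y ∈ f.support.filter (fun x => wl S x = n), ‖f y‖ ^ 2 := by
          rw [← hfs n]
          exact Finset.sum_congr rfl (fun y hy => by rw [hfv n y hy])
        have e2 : ∑ y ∈ f.support.filter (fun x => wl S x = n),
            ‖f y‖ ^ 2 * (1 + (wl S y : ℝ)) ^ (k + 2) =
            (∑ y ∈ f.support.filter (fun x => wl S x = n), ‖f y‖ ^ 2) *
              (1 + (n : ℝ)) ^ (k + 2) := by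
          rw [Finset.sum_mul]
          refine Finset.sum_congr rfl (fun y hy => ?_)
          rw [(Finset.mem_filter.1 hy).2]
        rw [e1, e2]
        ring
    _ = _ := by
        rw [Finset.sum_fiberwise_of_maps_to hmaps]

/-- From finitely supported functions to all square summable functions. -/
theorem hasRD_of_ball {S : Finset G} (hS : ∀ s ∈ S, s⁻¹ ∈ S)
    (hgen : Subgroup.closure (S : Set G) = ⊤) (k : ℕ)
    (hb : ∀ (r : ℕ) (f g : G →₀ ℂ), (∀ x ∈ f.support, Bl S r x) → ∀ U : Finset G,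
      ∑ x ∈ U, ‖∑ y ∈ f.support, f y * g (y⁻¹ * x)‖ ^ 2 ≤
      1 * ((r : ℝ) + 1) ^ k * (∑ y ∈ f.support, ‖f y‖ ^ 2) * (∑ z ∈ g.support, ‖g z‖ ^ 2)) :
    HasRD S := by
  classical
  refine ⟨Real.sqrt 2, ((k + 2 : ℕ) : ℝ) / 2, by positivity, ?_⟩
  intro f
  have hw : ∑ x ∈ f.support, ‖f x‖ ^ 2 * (1 + (wl S x : ℝ)) ^ (2 * (((k + 2 : ℕ) : ℝ) / 2)) =
      ∑ x ∈ f.support, ‖f x‖ ^ 2 * (1 + (wl S x : ℝ)) ^ (k + 2) := by
    refine Finset.sum_congr rfl (fun x _ => ?_)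
    have : 2 * (((k + 2 : ℕ) : ℝ) / 2) = ((k + 2 : ℕ) : ℝ) := by ring
    rw [this, Real.rpow_natCast]
  set W : ℝ := ∑ x ∈ f.support, ‖f x‖ ^ 2 * (1 + (wl S x : ℝ)) ^ (k + 2) with hW
  have hW0 : 0 ≤ W := Finset.sum_nonneg (fun _ _ => by positivity)
  refine ⟨mul_nonneg (Real.sqrt_nonneg _) (Real.sqrt_nonneg _), ?_⟩
  intro ξ hξ
  -- the bound on finite sets
  have hfin : ∀ U : Finset G,
      ∑ x ∈ U, ‖conv f ξ x‖ ^ 2 ≤ 2 * W * ∑' x, ‖ξ x‖ ^ 2 := by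
    intro U
    set V : Finset G := (f.support ×ˢ U).image (fun p => p.1⁻¹ * p.2) with hV
    set g : G →₀ ℂ := Finsupp.onFinset V (fun x => if x ∈ V then ξ x else 0) (by
      intro a ha
      by_contra hcon
      simp [hcon] at ha) with hg
    have hgv : ∀ x ∈ V, g x = ξ x := by
      intro x hx
      change (if x ∈ V then ξ x else 0) = ξ x
      rw [if_pos hx]
    have h1 := weighted_of_ball hS hgen k hb f g U
    have h2 : ∑ x ∈ U, ‖conv f ξ x‖ ^ 2 =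
        ∑ x ∈ U, ‖∑ y ∈ f.support, f y * g (y⁻¹ * x)‖ ^ 2 := by
      refine Finset.sum_congr rfl (fun x hx => ?_)
      rw [conv]
      congr 2
      refine Finset.sum_congr rfl (fun y hy => ?_)
      rw [hgv]
      exact Finset.mem_image.2 ⟨(y, x), Finset.mem_product.2 ⟨hy, hx⟩, rfl⟩
    rw [h2]
    refine h1.trans ?_
    refine mul_le_mul_of_nonneg_left ?_ (by positivity)
    have h3 : ∑ z ∈ g.support, ‖g z‖ ^ 2 ≤ ∑ z ∈ V, ‖ξ z‖ ^ 2 := by
      have hsub : g.support ⊆ V := Finsupp.support_onFinset_subset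
      calc ∑ z ∈ g.support, ‖g z‖ ^ 2 = ∑ z ∈ g.support, ‖ξ z‖ ^ 2 :=
            Finset.sum_congr rfl (fun z hz => by rw [hgv z (hsub hz)])
        _ ≤ _ := Finset.sum_le_sum_of_subset_of_nonneg hsub (fun _ _ _ => by positivity)
    exact h3.trans (hξ.sum_le_tsum V (fun _ _ => by positivity))
  have hsum : Summable (fun x => ‖conv f ξ x‖ ^ 2) :=
    summable_of_sum_le (fun _ => by positivity) hfin
  refine ⟨hsum, ?_⟩
  have h4 : ∑' x, ‖conv f ξ x‖ ^ 2 ≤ 2 * W * ∑' x, ‖ξ x‖ ^ 2 :=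
    hsum.tsum_le_of_sum_le hfin
  calc Real.sqrt (∑' x, ‖conv f ξ x‖ ^ 2) ≤ Real.sqrt (2 * W * ∑' x, ‖ξ x‖ ^ 2) :=
        Real.sqrt_le_sqrt h4
    _ = Real.sqrt 2 * wnorm S (((k + 2 : ℕ) : ℝ) / 2) f * Real.sqrt (∑' x, ‖ξ x‖ ^ 2) := by
        rw [wnorm, hw, Real.sqrt_mul (by positivity), Real.sqrt_mul (by norm_num)]

/-- From bounded operators to the polynomial bound on balls. -/
theorem ball_of_hasRD {S : Finset G} (hS : ∀ s ∈ S, s⁻¹ ∈ S) (hRD : HasRD S) :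
    ∃ C : ℝ, ∃ k : ℕ, ∀ r : ℕ, ∀ f g : G →₀ ℂ,
      (∀ x ∈ f.support, Bl S r x) → ∀ U : Finset G,
      ∑ x ∈ U, ‖∑ y ∈ f.support, f y * g (y⁻¹ * x)‖ ^ 2 ≤
      C * ((r : ℝ) + 1) ^ k * (∑ y ∈ f.support, ‖f y‖ ^ 2) * (∑ z ∈ g.support, ‖g z‖ ^ 2) := by
  classical
  obtain ⟨C, s, hs, H⟩ := hRD
  obtain ⟨k, hk⟩ := exists_nat_ge (2 * s)
  refine ⟨C ^ 2, k, fun r f g hf U => ?_⟩
  obtain ⟨hc0, hA⟩ := H f
  have hg0 : ∀ y ∉ g.support, ‖g y‖ ^ 2 = 0 := by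
    intro y hy
    rw [Finsupp.notMem_support_iff] at hy
    rw [hy]; simp
  have hgs : Summable (fun x => ‖g x‖ ^ 2) := summable_of_ne_finset_zero hg0
  have hgt : ∑' x, ‖g x‖ ^ 2 = ∑ z ∈ g.support, ‖g z‖ ^ 2 := tsum_eq_sum hg0
  obtain ⟨h1, h2⟩ := hA (fun x => g x) hgs
  have h1' : ∑ x ∈ U, ‖∑ y ∈ f.support, f y * g (y⁻¹ * x)‖ ^ 2 ≤
      ∑' x, ‖conv f (fun x => g x) x‖ ^ 2 := h1.sum_le_tsum U (fun _ _ => by positivity)
  have h2' : ∑' x, ‖conv f (fun x => g x) x‖ ^ 2 ≤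
      (C * wnorm S s f) ^ 2 * ∑ z ∈ g.support, ‖g z‖ ^ 2 := by
    have e1 : 0 ≤ ∑' x, ‖conv f (fun x => g x) x‖ ^ 2 := tsum_nonneg (fun _ => by positivity)
    have e2 : 0 ≤ ∑ z ∈ g.support, ‖g z‖ ^ 2 := Finset.sum_nonneg (fun _ _ => by positivity)
    have h3 := pow_le_pow_left₀ (Real.sqrt_nonneg _) h2 2
    rwa [Real.sq_sqrt e1, mul_pow, hgt, Real.sq_sqrt e2] at h3
  have h3 : wnorm S s f ^ 2 ≤ ((r : ℝ) + 1) ^ k * ∑ y ∈ f.support, ‖f y‖ ^ 2 := by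
    rw [wnorm, Real.sq_sqrt (Finset.sum_nonneg (fun _ _ => by positivity)), Finset.mul_sum]
    refine Finset.sum_le_sum (fun x hx => ?_)
    rw [mul_comm]
    refine mul_le_mul_of_nonneg_right ?_ (by positivity)
    have hw := wl_le hS (hf x hx)
    have hw' : (wl S x : ℝ) ≤ r := by exact_mod_cast hw
    calc (1 + (wl S x : ℝ)) ^ (2 * s) ≤ ((r : ℝ) + 1) ^ (2 * s) :=
          Real.rpow_le_rpow (by positivity) (by linarith) (by linarith)
      _ ≤ ((r : ℝ) + 1) ^ (k : ℝ) :=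
          Real.rpow_le_rpow_of_exponent_le (by linarith [Nat.cast_nonneg (α := ℝ) r]) hk
      _ = _ := Real.rpow_natCast _ _
  calc _ ≤ (C * wnorm S s f) ^ 2 * (∑ z ∈ g.support, ‖g z‖ ^ 2) := h1'.trans h2'
    _ = C ^ 2 * wnorm S s f ^ 2 * (∑ z ∈ g.support, ‖g z‖ ^ 2) := by rw [mul_pow]
    _ ≤ C ^ 2 * (((r : ℝ) + 1) ^ k * ∑ y ∈ f.support, ‖f y‖ ^ 2) *
          (∑ z ∈ g.support, ‖g z‖ ^ 2) := by
        refine mul_le_mul_of_nonneg_right ?_ (Finset.sum_nonneg (fun _ _ => by positivity))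
        exact mul_le_mul_of_nonneg_left h3 (by positivity)
    _ = _ := by ring

end general

open Classical in
/-- symmetric generating set of `K` -/
noncomputable def SK' : Finset Ksub := SK ∪ SK.image (fun x => x⁻¹)

open Classical in
/-- symmetric generating set of `Lam` -/
noncomputable def SL' : Finset Lam := SL ∪ SL.image (fun x => x⁻¹)

theorem mem_SK' {x : Ksub} : x ∈ SK' ↔ x ∈ SK ∨ x⁻¹ ∈ SK := by
  classical
  rw [SK', Finset.mem_union, Finset.mem_image]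
  constructor
  · rintro (h | ⟨a, ha, rfl⟩)
    · exact Or.inl h
    · exact Or.inr (by simpa using ha)
  · rintro (h | h)
    · exact Or.inl h
    · exact Or.inr ⟨_, h, inv_inv x⟩

theorem mem_SL' {x : Lam} : x ∈ SL' ↔ x ∈ SL ∨ x⁻¹ ∈ SL := by
  classical
  rw [SL', Finset.mem_union, Finset.mem_image]
  constructor
  · rintro (h | ⟨a, ha, rfl⟩)
    · exact Or.inl h
    · exact Or.inr (by simpa using ha)
  · rintro (h | h)
    · exact Or.inl h
    · exact Or.inr ⟨_, h, inv_inv x⟩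

theorem SK'_symm : ∀ s ∈ SK', s⁻¹ ∈ SK' := by
  intro s hs
  rw [mem_SK'] at *
  rw [inv_inv]; exact hs.symm

theorem SL'_symm : ∀ s ∈ SL', s⁻¹ ∈ SL' := by
  intro s hs
  rw [mem_SL'] at *
  rw [inv_inv]; exact hs.symm

theorem closure_SK' : Subgroup.closure (SK' : Set Ksub) = ⊤ := by
  rw [eq_top_iff, ← closure_SK]
  exact Subgroup.closure_mono (fun x hx => Finset.mem_coe.2 (mem_SK'.2 (Or.inl hx)))

theorem closure_SL' : Subgroup.closure (SL' : Set Lam) = ⊤ := by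
  rw [eq_top_iff, ← closure_SL]
  exact Subgroup.closure_mono (fun x hx => Finset.mem_coe.2 (mem_SL'.2 (Or.inl hx)))

theorem Bl_SK' {r : ℕ} {x : Ksub} (hx : Bl SK' r x) : Bl SK r x := by
  obtain ⟨l, h1, h2, h3⟩ := hx
  refine ⟨l, h1, fun s hs => ?_, h3⟩
  rcases h2 s hs with h | h
  · exact mem_SK'.1 h
  · have := mem_SK'.1 h
    rw [inv_inv] at this
    exact this.symm

theorem Bl_SL' {r : ℕ} {x : Lam} (hx : Bl SL r x) : Bl SL' r x := by
  obtain ⟨l, h1, h2, h3⟩ := hx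
  exact ⟨l, h1, fun s hs => Or.inl (mem_SL'.2 (h2 s hs)), h3⟩

theorem hasRD_K : HasRD SK' :=
  hasRD_of_ball SK'_symm closure_SK' 8
    (fun r f g hf U => rd_K r f g (fun x hx => Bl_SK' (hf x hx)) U)

theorem not_hasRD_Lam : ¬ HasRD SL' := by
  intro hRD
  obtain ⟨C, k, H⟩ := ball_of_hasRD SL'_symm hRD
  exact not_rd_Lam ⟨C, k, fun r f g hf U => H r f g (fun x hx => Bl_SL' (hf x hx)) U⟩

theorem toLam_adj (x y : Ksub) : x⁻¹ * y ∈ SK' ↔ (toLam x)⁻¹ * toLam y ∈ SL' := by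
  constructor
  · intro hxy
    obtain ⟨t, ht, e⟩ := step1 x (x⁻¹ * y) (mem_SK'.1 hxy)
    rw [mul_inv_cancel_left] at e
    rw [e, inv_mul_cancel_left]
    exact mem_SL'.2 ht
  · intro hxy
    obtain ⟨s, hs, e⟩ := step2 x ((toLam x)⁻¹ * toLam y) (mem_SL'.1 hxy)
    rw [mul_inv_cancel_left] at e
    rw [← toLam_injective e, inv_mul_cancel_left]
    exact mem_SK'.2 hs

/-- the isomorphism of Cayley graphs -/
noncomputable def cayIso : cay SK' ≃g cay SL' where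
  toEquiv := Equiv.ofBijective toLam ⟨toLam_injective, toLam_surjective⟩
  map_rel_iff' := by
    intro x y
    change (cay SL').Adj (toLam x) (toLam y) ↔ (cay SK').Adj x y
    rw [cay, cay, SimpleGraph.fromRel_adj, SimpleGraph.fromRel_adj, ← toLam_adj, ← toLam_adj,
      toLam_injective.ne_iff]

end RDQI
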