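import Mathlib

set_option autoImplicit false

/-! The twisted group law on the fibre product `F₂ ×_ℤ F₂`. -/

namespace RDQI

open FreeGroup

/-- The free group of rank two, generators indexed by `ZMod 2`. -/
abbrev F := FreeGroup (ZMod 2)

/-- patterns -/
abbrev Om := ℤ → ZMod 2

/-- shift of patterns: `(sh m ω) n = ω (n + m)` -/
def sh (m : ℤ) (ω : Om) : Om := fun n => ω (n + m)

theorem sh_apply (m : ℤ) (ω : Om) (n : ℤ) : sh m ω n = ω (n + m) := rfl

theorem sh_zero (ω : Om) : sh 0 ω = ω := by funext n; simp [sh]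

theorem sh_sh (m m' : ℤ) (ω : Om) : sh m (sh m' ω) = sh (m + m') ω := by
  funext n; simp [sh, add_assoc]

theorem sh_add (m : ℤ) (ω ω' : Om) : sh m (ω + ω') = sh m ω + sh m ω' := by
  funext n; simp [sh]

/-- exponent sum -/
def ht : F →* Multiplicative ℤ := FreeGroup.lift (fun _ => Multiplicative.ofAdd 1)

/-- height -/
def h (x : F) : ℤ := Multiplicative.toAdd (ht x)

@[simp] theorem h_one : h 1 = 0 := by simp [h]
@[simp] theorem h_mul (x y : F) : h (x * y) = h x + h y := by simp [h]
@[simp] theorem h_inv (x : F) : h x⁻¹ = - h x := by simp [h]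
@[simp] theorem h_of (a : ZMod 2) : h (FreeGroup.of a) = 1 := by simp [h, ht]

/-- The action of `ℤ` on functions `Om → F`. -/
def phi : Multiplicative ℤ →* MulAut (Om → F) where
  toFun m :=
    { toFun := fun u ω => u (sh (Multiplicative.toAdd m) ω)
      invFun := fun u ω => u (sh (-Multiplicative.toAdd m) ω)
      left_inv := fun u => by funext ω; simp [sh_sh, sh_zero]
      right_inv := fun u => by funext ω; simp [sh_sh, sh_zero]
      map_mul' := fun _ _ => rfl }
  map_one' := by
    ext u ω; simp [sh_zero]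
  map_mul' m m' := by
    ext u ω
    simp [sh_sh, add_comm]

/-- the homomorphism that encodes all the local flips -/
def Theta : F →* (Om → F) ⋊[phi] (Multiplicative ℤ) :=
  FreeGroup.lift (fun a => ⟨fun ω => FreeGroup.of (a + ω 0), Multiplicative.ofAdd 1⟩)

theorem Theta_right (x : F) : (Theta x).right = ht x := by
  have : (SemidirectProduct.rightHom.comp Theta) = ht := by
    ext a; simp [Theta, ht]
  exact DFunLike.congr_fun this x

/-- `sg ω x` : flip the labels of `x` at the heights where `ω` is one. -/
def sg (ω : Om) (x : F) : F := (Theta x).left ω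

@[simp] theorem sg_one (ω : Om) : sg ω 1 = 1 := by simp [sg]

theorem sg_mul (ω : Om) (x y : F) : sg ω (x * y) = sg ω x * sg (sh (h x) ω) y := by
  have e : Theta (x * y) = Theta x * Theta y := Theta.map_mul x y
  rw [sg, e, SemidirectProduct.mul_left, Theta_right]
  rfl

@[simp] theorem sg_of (ω : Om) (a : ZMod 2) : sg ω (FreeGroup.of a) = FreeGroup.of (a + ω 0) := by
  simp [sg, Theta]

theorem sg_inv (ω : Om) (x : F) : sg ω x⁻¹ = (sg (sh (- h x) ω) x)⁻¹ := by
  have := sg_mul (sh (-h x) ω) x x⁻¹
  rw [mul_inv_cancel, sg_one, sh_sh, add_neg_cancel, sh_zero] at this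
  exact (inv_eq_of_mul_eq_one_right this.symm).symm

@[simp] theorem h_sg (ω : Om) (x : F) : h (sg ω x) = h x := by
  induction x using FreeGroup.induction_on generalizing ω with
  | C1 => simp
  | of a => simp
  | inv_of a ih => rw [sg_inv]; simp
  | mul x y ihx ihy => rw [sg_mul, h_mul, h_mul, ihx, ihy]

theorem sg_sg (ω ω' : Om) (x : F) : sg ω (sg ω' x) = sg (ω + ω') x := by
  induction x using FreeGroup.induction_on generalizing ω ω' with
  | C1 => simp
  | of a => simp [add_assoc, add_comm (ω' 0)]
  | inv_of a ih =>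
    rw [sg_inv, sg_inv, sg_inv, h_sg, ih, ← sh_add]
  | mul x y ihx ihy => rw [sg_mul, sg_mul, sg_mul, ihx, h_sg, ihy, ← sh_add]

theorem sg_zero (x : F) : sg 0 x = x := by
  induction x using FreeGroup.induction_on with
  | C1 => simp
  | of a => simp
  | inv_of a ih =>
    rw [sg_inv]
    have : sh (-h (FreeGroup.of a)) 0 = 0 := rfl
    rw [this, ih]
  | mul x y ihx ihy =>
    rw [sg_mul]
    have : sh (h x) 0 = 0 := rfl
    rw [this, ihx, ihy]

/-- The lamplighter configuration hom. -/
def phiL : Multiplicative ℤ →* MulAut (Multiplicative Om) where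
  toFun m :=
    { toFun := fun u => Multiplicative.ofAdd (sh (-Multiplicative.toAdd m) (Multiplicative.toAdd u))
      invFun := fun u => Multiplicative.ofAdd (sh (Multiplicative.toAdd m) (Multiplicative.toAdd u))
      left_inv := fun u => by simp [sh_sh, sh_zero]
      right_inv := fun u => by simp [sh_sh, sh_zero]
      map_mul' := fun _ _ => rfl }
  map_one' := by
    ext u; simp [sh_zero]
  map_mul' m m' := by
    ext u
    have e : sh (-Multiplicative.toAdd (m * m')) (Multiplicative.toAdd u) =
        sh (-Multiplicative.toAdd m) (sh (-Multiplicative.toAdd m') (Multiplicative.toAdd u)) := by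
      rw [sh_sh, toAdd_mul, neg_add]
    exact congrFun e _

/-- lamplighter homomorphism -/
def Lmp : F →* (Multiplicative Om) ⋊[phiL] (Multiplicative ℤ) :=
  FreeGroup.lift (fun a => ⟨Multiplicative.ofAdd (Pi.single 0 a), Multiplicative.ofAdd 1⟩)

theorem Lmp_right (x : F) : (Lmp x).right = ht x := by
  have : (SemidirectProduct.rightHom.comp Lmp) = ht := by
    ext a; simp [Lmp, ht]
  exact DFunLike.congr_fun this x

/-- `pi x k` : the sum of the labels of the edges of `x` between heights `k` and `k+1`. -/
def pi (x : F) : Om := Multiplicative.toAdd (Lmp x).left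

@[simp] theorem pi_one : pi 1 = 0 := by simp [pi]

theorem pi_mul (x y : F) : pi (x * y) = pi x + sh (- h x) (pi y) := by
  have e : Lmp (x * y) = Lmp x * Lmp y := Lmp.map_mul x y
  rw [pi, e, SemidirectProduct.mul_left, Lmp_right]
  rfl

@[simp] theorem pi_of (a : ZMod 2) : pi (FreeGroup.of a) = Pi.single 0 a := by
  simp [pi, Lmp]

theorem Om_neg (ω : Om) : -ω = ω := by
  funext n; exact ZMod.neg_eq_self_mod_two _

theorem Om_add_self (ω : Om) : ω + ω = 0 := by
  funext n; exact CharTwo.add_self_eq_zero _

theorem pi_inv (x : F) : pi x⁻¹ = sh (h x) (pi x) := by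
  have := pi_mul x⁻¹ x
  rw [inv_mul_cancel, pi_one, h_inv, neg_neg] at this
  have h2 := congrArg (fun t => t + sh (h x) (pi x)) this
  simp only [zero_add, add_assoc, Om_add_self, add_zero] at h2
  exact h2.symm

/-- crossing indicator -/
def cr (m : ℤ) : Om := fun k => (if k < m then 1 else 0) + (if k < 0 then 1 else 0)

theorem cr_add (m m' : ℤ) : cr (m + m') = cr m + sh (-m) (cr m') := by
  funext k
  simp only [cr, Pi.add_apply, sh_apply]
  have e1 : (k < m + m') ↔ (k + -m < m') := by omega
  have e2 : (k + -m < 0) ↔ k < m := by omega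
  simp only [e1, e2]
  have : ((if k < m then (1 : ZMod 2) else 0) + (if k < m then 1 else 0)) = 0 :=
    CharTwo.add_self_eq_zero _
  linear_combination (-1 : ZMod 2) * this

theorem pi_sg (ω : Om) (x : F) : pi (sg ω x) = pi x + ω * cr (h x) := by
  induction x using FreeGroup.induction_on generalizing ω with
  | C1 =>
    simp only [sg_one, pi_one, h_one, zero_add]
    funext k
    simp only [Pi.mul_apply, cr, Pi.zero_apply, CharTwo.add_self_eq_zero, mul_zero]
  | of a =>
    simp only [sg_of, pi_of, h_of]
    funext k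
    simp only [Pi.add_apply, Pi.mul_apply, cr]
    by_cases hk : k = 0
    · subst hk; simp
    · have e : (k < 1) ↔ (k < 0) := by omega
      simp [hk, e, CharTwo.add_self_eq_zero]
  | inv_of a ih =>
    rw [sg_inv, pi_inv, pi_inv, h_sg, ih, sh_add]
    congr 1
    funext k
    simp only [sh_apply, Pi.mul_apply, h_inv, h_of, cr]
    have e0 : k + 1 + -1 = k := by ring
    have e1 : (k + 1 < 1) ↔ (k < 0) := by omega
    have e2 : (k + 1 < 0) ↔ (k < -1) := by omega
    rw [e0]
    simp only [e1, e2]
    ring
  | mul x y ihx ihy =>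
    rw [sg_mul, pi_mul, pi_mul, ihx, ihy, h_sg, h_mul, sh_add, cr_add]
    have : sh (-h x) (sh (h x) ω * cr (h y)) = ω * sh (-h x) (cr (h y)) := by
      funext k; simp [sh_apply]
    rw [this]; ring

/-- The twisted group. -/
@[ext] structure Lam where
  /-- first coordinate -/
  z : F
  /-- second coordinate -/
  y : F
  /-- same height -/
  hzy : h z = h y

namespace Lam

/-- pattern seen from the current position -/
def pat (p : Lam) : Om := sh (h p.z) (pi p.z + pi p.y)

instance : Mul Lam where
  mul p q := ⟨p.z * sg p.pat q.z, p.y * sg p.pat q.y, by simp [p.hzy, q.hzy]⟩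

instance : One Lam where
  one := ⟨1, 1, rfl⟩

@[simp] theorem one_z : (1 : Lam).z = 1 := rfl
@[simp] theorem one_y : (1 : Lam).y = 1 := rfl
@[simp] theorem mul_z (p q : Lam) : (p * q).z = p.z * sg p.pat q.z := rfl
@[simp] theorem mul_y (p q : Lam) : (p * q).y = p.y * sg p.pat q.y := rfl

theorem pat_one : pat 1 = 0 := by
  funext n; simp [pat, sh_apply]

theorem pat_mul (p q : Lam) : pat (p * q) = sh (h q.z) p.pat + q.pat := by
  have e1 : pi (p * q).z + pi (p * q).y =
      (pi p.z + pi p.y) + sh (- h p.z) (pi q.z + pi q.y) := by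
    rw [mul_z, mul_y, pi_mul, pi_mul, pi_sg, pi_sg, ← p.hzy, ← q.hzy, sh_add, sh_add, sh_add]
    have := Om_add_self (sh (-h p.z) (p.pat * cr (h q.z)))
    linear_combination this
  rw [pat, e1, mul_z, h_mul, h_sg, sh_add, sh_sh, pat, pat, sh_sh]
  congr 1
  · rw [add_comm]
  · congr 1; ring

/-- the inverse -/
def linv (p : Lam) : Lam :=
  ⟨(sg (sh (- h p.z) p.pat) p.z)⁻¹, (sg (sh (- h p.z) p.pat) p.y)⁻¹, by simp [p.hzy]⟩

theorem pat_linv (p : Lam) : pat (linv p) = sh (- h p.z) p.pat := by
  have e : pi (linv p).z + pi (linv p).y = sh (h p.z) (pi p.z + pi p.y) := by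
    simp only [linv]
    rw [pi_inv, pi_inv, h_sg, h_sg, pi_sg, pi_sg, ← p.hzy, ← sh_add]
    congr 1
    have := Om_add_self (sh (-h p.z) p.pat * cr (h p.z))
    linear_combination this
  rw [pat, e]
  simp only [linv, h_inv, h_sg]
  rfl

instance : Group Lam :=
  { mul_assoc := by
      intro p q r
      ext1
      · simp only [mul_z, pat_mul, sg_mul, sg_sg, mul_assoc]
      · simp only [mul_y, pat_mul, sg_mul, sg_sg, mul_assoc, q.hzy]
    one_mul := by
      intro p
      ext1
      · simp [pat_one, sg_zero]
      · simp [pat_one, sg_zero]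
    mul_one := by
      intro p
      ext1
      · simp
      · simp
    inv := linv
    inv_mul_cancel := by
      intro p
      ext1
      · rw [mul_z, pat_linv]; simp [linv]
      · rw [mul_y, pat_linv]; simp [linv] }

end Lam

end RDQI
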