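import Pool.Agent.MP_fb096d_an.FreeRD
import Pool.Agent.MP_fb096d_an.Lam

set_option autoImplicit false

/-! The fibre product `K = F₂ ×_ℤ F₂` has rapid decay, the twisted group `Lam` has the same
Cayley graph and does not. -/

namespace RDQI

open FreeGroup

section balls

variable {G H : Type*} [Group G] [Group H]

/-- `x` is a product of at most `n` elements of `S ∪ S⁻¹`. -/
def Bl (S : Finset G) (n : ℕ) (x : G) : Prop :=
  ∃ l : List G, l.length ≤ n ∧ (∀ s ∈ l, s ∈ S ∨ s⁻¹ ∈ S) ∧ l.prod = x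

theorem Bl.one (S : Finset G) (n : ℕ) : Bl S n 1 := ⟨[], by simp, by simp, by simp⟩

theorem Bl.of_mem {S : Finset G} {s : G} (hs : s ∈ S) : Bl S 1 s :=
  ⟨[s], by simp, by simp [hs], by simp⟩

theorem Bl.mul {S : Finset G} {m n : ℕ} {x y : G} (hx : Bl S m x) (hy : Bl S n y) :
    Bl S (m + n) (x * y) := by
  obtain ⟨l, h1, h2, h3⟩ := hx
  obtain ⟨l', h1', h2', h3'⟩ := hy
  refine ⟨l ++ l', by simp; omega, ?_, by rw [List.prod_append, h3, h3']⟩
  intro s hs
  rcases List.mem_append.1 hs with h | h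
  · exact h2 s h
  · exact h2' s h

theorem Bl.inv {S : Finset G} {m : ℕ} {x : G} (hx : Bl S m x) : Bl S m x⁻¹ := by
  obtain ⟨l, h1, h2, h3⟩ := hx
  refine ⟨(l.map (fun t => t⁻¹)).reverse, by simpa using h1, ?_, ?_⟩
  · intro s hs
    rw [List.mem_reverse, List.mem_map] at hs
    obtain ⟨t, ht, rfl⟩ := hs
    rw [inv_inv]
    exact (h2 t ht).symm
  · rw [← h3, List.prod_inv_reverse]

theorem ball_fwd (S : Finset G) (T : Finset H) (φ : G → H)
    (step : ∀ g s, (s ∈ S ∨ s⁻¹ ∈ S) → ∃ t, (t ∈ T ∨ t⁻¹ ∈ T) ∧ φ (g * s) = φ g * t)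
    (x y : G) (n : ℕ) (hb : Bl S n (x⁻¹ * y)) : Bl T n ((φ x)⁻¹ * φ y) := by
  obtain ⟨l, h1, h2, h3⟩ := hb
  have key : ∀ (l : List G), (∀ s ∈ l, s ∈ S ∨ s⁻¹ ∈ S) → ∀ x : G,
      ∃ l' : List H, l'.length = l.length ∧ (∀ t ∈ l', t ∈ T ∨ t⁻¹ ∈ T) ∧
        φ (x * l.prod) = φ x * l'.prod := by
    intro l
    induction l with
    | nil => intro _ x; exact ⟨[], by simp, by simp, by simp⟩
    | cons s l ih =>
      intro hl x
      obtain ⟨t, ht, hxt⟩ := step x s (hl s (by simp))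
      obtain ⟨l', ha, hb, hc⟩ := ih (fun s hs => hl s (by simp [hs])) (x * s)
      refine ⟨t :: l', by simp [ha], ?_, ?_⟩
      · intro u hu
        rcases List.mem_cons.1 hu with rfl | hu
        · exact ht
        · exact hb u hu
      · rw [List.prod_cons, List.prod_cons, ← mul_assoc, hc, hxt, mul_assoc]
  obtain ⟨l', ha, hb, hc⟩ := key l h2 x
  refine ⟨l', by omega, hb, ?_⟩
  rw [h3, mul_inv_cancel_left] at hc
  rw [hc, inv_mul_cancel_left]

theorem ball_bwd (S : Finset G) (T : Finset H) (φ : G → H) (hφ : Function.Injective φ)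
    (step : ∀ g t, (t ∈ T ∨ t⁻¹ ∈ T) → ∃ s, (s ∈ S ∨ s⁻¹ ∈ S) ∧ φ (g * s) = φ g * t)
    (x y : G) (n : ℕ) (hb : Bl T n ((φ x)⁻¹ * φ y)) : Bl S n (x⁻¹ * y) := by
  obtain ⟨l, h1, h2, h3⟩ := hb
  have key : ∀ (l : List H), (∀ t ∈ l, t ∈ T ∨ t⁻¹ ∈ T) → ∀ x : G,
      ∃ l' : List G, l'.length = l.length ∧ (∀ s ∈ l', s ∈ S ∨ s⁻¹ ∈ S) ∧
        φ (x * l'.prod) = φ x * l.prod := by
    intro l
    induction l with
    | nil => intro _ x; exact ⟨[], by simp, by simp, by simp⟩
    | cons t l ih =>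
      intro hl x
      obtain ⟨s, hs, hxs⟩ := step x t (hl t (by simp))
      obtain ⟨l', ha, hb, hc⟩ := ih (fun s hs => hl s (by simp [hs])) (x * s)
      refine ⟨s :: l', by simp [ha], ?_, ?_⟩
      · intro u hu
        rcases List.mem_cons.1 hu with rfl | hu
        · exact hs
        · exact hb u hu
      · rw [List.prod_cons, List.prod_cons, ← mul_assoc, hc, hxs, mul_assoc]
  obtain ⟨l', ha, hb, hc⟩ := key l h2 x
  refine ⟨l', by omega, hb, ?_⟩
  rw [h3, mul_inv_cancel_left] at hc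
  rw [← hφ hc, inv_mul_cancel_left]

end balls

/-- The fibre product of two free groups over `ℤ`. -/
def Ksub : Subgroup (F × F) where
  carrier := {p | h p.1 = h p.2}
  one_mem' := rfl
  mul_mem' := by
    intro a b ha hb
    simp only [Set.mem_ofPred_eq, Prod.fst_mul, Prod.snd_mul, h_mul] at *
    rw [ha, hb]
  inv_mem' := by
    intro a ha
    simp only [Set.mem_ofPred_eq, Prod.fst_inv, Prod.snd_inv, h_inv] at *
    rw [ha]

/-- generators of `K` -/
def gK (i j : ZMod 2) : Ksub := ⟨(FreeGroup.of i, FreeGroup.of j), by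
  change h (FreeGroup.of i) = h (FreeGroup.of j); simp⟩

/-- generators of `Lam` -/
def gL (i j : ZMod 2) : Lam := ⟨FreeGroup.of i, FreeGroup.of j, by simp⟩

/-- the identity map -/
def toLam (k : Ksub) : Lam := ⟨k.1.1, k.1.2, k.2⟩

@[simp] theorem toLam_z (k : Ksub) : (toLam k).z = k.1.1 := rfl
@[simp] theorem toLam_y (k : Ksub) : (toLam k).y = k.1.2 := rfl

theorem toLam_injective : Function.Injective toLam := by
  intro a b hab
  have h1 := congrArg Lam.z hab
  have h2 := congrArg Lam.y hab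
  exact Subtype.ext (Prod.ext h1 h2)

theorem toLam_surjective : Function.Surjective toLam := by
  intro p
  exact ⟨⟨(p.z, p.y), p.hzy⟩, rfl⟩

open Classical in
/-- generating set of `K` -/
noncomputable def SK : Finset Ksub := Finset.univ.image (fun p : ZMod 2 × ZMod 2 => gK p.1 p.2)

open Classical in
/-- generating set of `Lam` -/
noncomputable def SL : Finset Lam := Finset.univ.image (fun p : ZMod 2 × ZMod 2 => gL p.1 p.2)

theorem mem_SK {x : Ksub} : x ∈ SK ↔ ∃ i j, gK i j = x := by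
  simp [SK]

theorem mem_SL {x : Lam} : x ∈ SL ↔ ∃ i j, gL i j = x := by
  simp [SL]

theorem toLam_mul_gK (k : Ksub) (i j : ZMod 2) :
    toLam (k * gK i j) = toLam k * gL (i + (toLam k).pat 0) (j + (toLam k).pat 0) := by
  have e : ∀ a b : ZMod 2, a + b + b = a := by decide
  ext1
  · rw [Lam.mul_z]; simp [gK, gL, e]
  · rw [Lam.mul_y]; simp [gK, gL, e]

theorem toLam_mul_gK' (k : Ksub) (i j : ZMod 2) :
    toLam (k * gK (i + (toLam k).pat 0) (j + (toLam k).pat 0)) = toLam k * gL i j := by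
  have e : ∀ a b : ZMod 2, a + b + b = a := by decide
  rw [toLam_mul_gK, e, e]

theorem step1 (g s : Ksub) (hs : s ∈ SK ∨ s⁻¹ ∈ SK) :
    ∃ t, (t ∈ SL ∨ t⁻¹ ∈ SL) ∧ toLam (g * s) = toLam g * t := by
  rcases hs with hs | hs
  · obtain ⟨i, j, rfl⟩ := mem_SK.1 hs
    exact ⟨_, Or.inl (mem_SL.2 ⟨_, _, rfl⟩), toLam_mul_gK g i j⟩
  · obtain ⟨i, j, hij⟩ := mem_SK.1 hs
    have := toLam_mul_gK (g * s) i j
    rw [hij, mul_inv_cancel_right] at this
    refine ⟨(gL (i + (toLam (g * s)).pat 0) (j + (toLam (g * s)).pat 0))⁻¹,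
      Or.inr (by rw [inv_inv]; exact mem_SL.2 ⟨_, _, rfl⟩), ?_⟩
    rw [this, mul_inv_cancel_right]

theorem step2 (g : Ksub) (t : Lam) (ht : t ∈ SL ∨ t⁻¹ ∈ SL) :
    ∃ s, (s ∈ SK ∨ s⁻¹ ∈ SK) ∧ toLam (g * s) = toLam g * t := by
  rcases ht with ht | ht
  · obtain ⟨i, j, rfl⟩ := mem_SL.1 ht
    exact ⟨_, Or.inl (mem_SK.2 ⟨_, _, rfl⟩), toLam_mul_gK' g i j⟩
  · obtain ⟨i, j, hij⟩ := mem_SL.1 ht
    obtain ⟨g', hg'⟩ := toLam_surjective (toLam g * t)
    have := toLam_mul_gK' g' i j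
    obtain ⟨c, hc⟩ : ∃ c, c = (toLam g').pat 0 := ⟨_, rfl⟩
    rw [← hc, hij, hg', mul_inv_cancel_right] at this
    have h3 := toLam_injective this
    refine ⟨(gK (i + c) (j + c))⁻¹,
      Or.inr (by rw [inv_inv]; exact mem_SK.2 ⟨_, _, rfl⟩), ?_⟩
    rw [← hg', ← h3, mul_inv_cancel_right]

/-- `K` is generated by `SK`. -/
theorem closure_SK : Subgroup.closure (SK : Set Ksub) = ⊤ := by
  -- the elements `(x, a₀ ^ h x)` and `(a₀ ^ h x, x)`
  set C := (Subgroup.closure (SK : Set Ksub)).map Ksub.subtype with hC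
  have hmem : ∀ i j : ZMod 2, ((FreeGroup.of i, FreeGroup.of j) : F × F) ∈ C := by
    intro i j
    exact ⟨gK i j, Subgroup.subset_closure (mem_SK.2 ⟨i, j, rfl⟩), rfl⟩
  have h1 : ∀ x : F, ((x, (FreeGroup.of (0 : ZMod 2)) ^ (h x)) : F × F) ∈ C := by
    intro x
    induction x using FreeGroup.induction_on with
    | C1 => rw [h_one, zpow_zero]; exact C.one_mem
    | of a => simpa using hmem a 0
    | inv_of a _ =>
      have := C.inv_mem (hmem a 0)
      simpa using this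
    | mul x y ihx ihy =>
      have := C.mul_mem ihx ihy
      simpa [zpow_add] using this
  have h2 : ∀ x : F, (((FreeGroup.of (0 : ZMod 2)) ^ (h x), x) : F × F) ∈ C := by
    intro x
    induction x using FreeGroup.induction_on with
    | C1 => rw [h_one, zpow_zero]; exact C.one_mem
    | of a => simpa using hmem 0 a
    | inv_of a _ =>
      have := C.inv_mem (hmem 0 a)
      simpa using this
    | mul x y ihx ihy =>
      have := C.mul_mem ihx ihy
      simpa [zpow_add] using this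
  have h3 : ∀ m : ℤ, (((FreeGroup.of (0 : ZMod 2)) ^ m, (FreeGroup.of (0 : ZMod 2)) ^ m) :
      F × F) ∈ C := by
    intro m
    have := C.zpow_mem (hmem 0 0) m
    simpa using this
  rw [eq_top_iff]
  rintro ⟨⟨x, y⟩, hxy⟩ _
  have hxy' : h x = h y := hxy
  have h4 := C.mul_mem (C.mul_mem (h1 x) (C.inv_mem (h3 (h x)))) (h2 y)
  have h5 : ((x, FreeGroup.of (0 : ZMod 2) ^ h x) *
      ((FreeGroup.of (0 : ZMod 2)) ^ (h x), (FreeGroup.of (0 : ZMod 2)) ^ (h x))⁻¹ *
      ((FreeGroup.of (0 : ZMod 2)) ^ (h y), y) : F × F) = (x, y) := by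
    rw [hxy']
    ext <;> simp
  rw [h5] at h4
  obtain ⟨k, hk, hk2⟩ := h4
  have : k = ⟨(x, y), hxy⟩ := Subtype.ext hk2
  rw [← this]; exact hk

theorem closure_SL : Subgroup.closure (SL : Set Lam) = ⊤ := by
  rw [eq_top_iff]
  rintro p -
  obtain ⟨k, rfl⟩ := toLam_surjective p
  have hk : k ∈ Subgroup.closure (SK : Set Ksub) := by rw [closure_SK]; trivial
  have key : ∀ k ∈ Subgroup.closure (SK : Set Ksub), ∀ g : Ksub,
      toLam g ∈ Subgroup.closure (SL : Set Lam) →
      toLam (g * k) ∈ Subgroup.closure (SL : Set Lam) := by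
    intro k hk
    induction hk using Subgroup.closure_induction'' with
    | one => intro g hg; simpa using hg
    | mem x hx =>
      intro g hg
      obtain ⟨t, ht, e⟩ := step1 g x (Or.inl hx)
      rw [e]
      refine Subgroup.mul_mem _ hg ?_
      rcases ht with ht | ht
      · exact Subgroup.subset_closure ht
      · exact (Subgroup.inv_mem_iff _).1 (Subgroup.subset_closure ht)
    | inv_mem x hx =>
      intro g hg
      obtain ⟨t, ht, e⟩ := step1 g x⁻¹ (Or.inr (by simpa using hx))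
      rw [e]
      refine Subgroup.mul_mem _ hg ?_
      rcases ht with ht | ht
      · exact Subgroup.subset_closure ht
      · exact (Subgroup.inv_mem_iff _).1 (Subgroup.subset_closure ht)
    | mul x y _ _ ihx ihy =>
      intro g hg
      rw [← mul_assoc]
      exact ihy _ (ihx _ hg)
  have := key k hk 1 (by
    have : toLam 1 = 1 := rfl
    rw [this]; exact Subgroup.one_mem _)
  simpa using this

/-- rapid decay of `K` -/
theorem rd_K (r : ℕ) (f g : Ksub →₀ ℂ) (hf : ∀ x ∈ f.support, Bl SK r x) (U : Finset Ksub) :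
    ∑ x ∈ U, ‖∑ y ∈ f.support, f y * g (y⁻¹ * x)‖ ^ 2 ≤
      1 * ((r : ℝ) + 1) ^ 8 * (∑ y ∈ f.support, ‖f y‖ ^ 2) * (∑ z ∈ g.support, ‖g z‖ ^ 2) := by
  classical
  have hn : ∀ x : Ksub, Bl SK r x → x.1.1.norm ≤ r ∧ x.1.2.norm ≤ r := by
    rintro x ⟨l, h1, h2, rfl⟩
    have key : ∀ l : List Ksub, (∀ s ∈ l, s ∈ SK ∨ s⁻¹ ∈ SK) →
        (l.prod).1.1.norm ≤ l.length ∧ (l.prod).1.2.norm ≤ l.length := by
      intro l
      induction l with
      | nil => intro _; simp
      | cons s l ih =>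
        intro hl
        have ih' := ih (fun s hs => hl s (by simp [hs]))
        have hs : s.1.1.norm ≤ 1 ∧ s.1.2.norm ≤ 1 := by
          rcases hl s (by simp) with h | h
          · obtain ⟨i, j, rfl⟩ := mem_SK.1 h
            simp [gK]
          · obtain ⟨i, j, hij⟩ := mem_SK.1 h
            have e : s = (gK i j)⁻¹ := by rw [hij, inv_inv]
            rw [e]; simp [gK]
        rw [List.prod_cons, List.length_cons]
        constructor
        · have := FreeGroup.norm_mul_le s.1.1 (l.prod).1.1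
          have e : (s * l.prod).1.1 = s.1.1 * (l.prod).1.1 := rfl
          rw [e]; omega
        · have := FreeGroup.norm_mul_le s.1.2 (l.prod).1.2
          have e : (s * l.prod).1.2 = s.1.2 * (l.prod).1.2 := rfl
          rw [e]; omega
    have := key l h2
    omega
  have main := conv_le_of_types (G := Ksub)
    (fun p q => (ftype p.1.1 q.1.1, ftype p.1.2 q.1.2))
    (by
      rintro ⟨i1, i2⟩ z s x x' e1 e2 e3 e4
      simp only [Prod.mk.injEq] at e1 e2 e3 e4
      apply Subtype.ext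
      apply Prod.ext
      · exact ftype_inj i1 z.1.1 s.1.1 x.1.1 x'.1.1 e1.1 e2.1 e3.1 e4.1
      · exact ftype_inj i2 z.1.2 s.1.2 x.1.2 x'.1.2 e1.2 e2.2 e3.2 e4.2)
    f g ((Finset.range (r + 1) ×ˢ Finset.range (r + 1)) ×ˢ
      (Finset.range (r + 1) ×ˢ Finset.range (r + 1)))
    (by
      intro z hz s
      have := hn z (hf z hz)
      exact Finset.mem_product.2 ⟨ftype_mem _ _ r this.1, ftype_mem _ _ r this.2⟩) U
  refine main.trans (le_of_eq ?_)
  simp only [Finset.card_product, Finset.card_range]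
  push_cast
  ring

/-! ### large finite subgroups of `Lam` -/

/-- the elements of the finite subgroups -/
def el (n : ℕ) (ω : Om) : Lam :=
  ⟨FreeGroup.of 0 ^ n * (sg ω (FreeGroup.of 0 ^ n))⁻¹, 1, by simp⟩

theorem h_pow (a : ZMod 2) (n : ℕ) : h (FreeGroup.of a ^ n) = n := by
  induction n with
  | zero => simp
  | succ n ih => rw [pow_succ, h_mul, ih]; simp

theorem pat_el (n : ℕ) (ω : Om) : (el n ω).pat = ω * cr n := by
  have hh : h (el n ω).z = 0 := by simp [el]
  rw [Lam.pat, hh, sh_zero]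
  simp only [el, pi_one, add_zero]
  rw [pi_mul, pi_inv, pi_sg, sh_sh, h_sg, h_pow, neg_add_cancel, sh_zero, ← add_assoc,
    Om_add_self, zero_add]

theorem el_mul (n : ℕ) (ω ω' : Om) (hω : ω * cr n = ω) :
    el n ω * el n ω' = el n (ω + ω') := by
  ext1
  · rw [Lam.mul_z, pat_el, hω]
    simp only [el]
    rw [sg_mul, sg_inv, h_sg, h_pow, sh_sh, neg_add_cancel, sh_zero, sg_sg]
    group
  · rw [Lam.mul_y, pat_el, hω]
    simp [el]

theorem el_zero (n : ℕ) : el n 0 = 1 := by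
  ext1
  · simp [el, sg_zero]
  · simp [el]

theorem ball_el (n : ℕ) (ω : Om) : Bl SL (n + n) (el n ω) := by
  have h1 : ∀ (ω : Om) (n : ℕ), ∃ k : Ksub, Bl SK n k ∧
      k.1 = (sg ω (FreeGroup.of 0 ^ n), FreeGroup.of 0 ^ n) := by
    intro ω n
    induction n with
    | zero => exact ⟨1, Bl.one _ _, by simp; rfl⟩
    | succ n ih =>
      obtain ⟨k, hk, e⟩ := ih
      refine ⟨k * gK (ω n) 0, hk.mul (Bl.of_mem (mem_SK.2 ⟨_, _, rfl⟩)), ?_⟩
      rw [pow_succ, sg_mul, h_pow, sg_of, zero_add, sh_apply, zero_add]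
      have : (k * gK (ω n) 0).1 = k.1 * (gK (ω n) 0).1 := rfl
      rw [this, e]; rfl
  obtain ⟨k, hk, ek⟩ := h1 0 n
  obtain ⟨k', hk', ek'⟩ := h1 ω n
  have h2 := ball_fwd SK SL toLam step1 1 (k * k'⁻¹) (n + n) (by
    rw [inv_one, one_mul]; exact hk.mul hk'.inv)
  have e1 : toLam 1 = 1 := rfl
  have e2 : toLam (k * k'⁻¹) = el n ω := by
    have e3 : (k * k'⁻¹).1 = k.1 * (k'.1)⁻¹ := rfl
    ext1
    · rw [toLam_z, e3, ek, ek', sg_zero]; rfl
    · rw [toLam_y, e3, ek, ek']; simp [el]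
  rw [e1, e2, inv_one, one_mul] at h2
  exact h2

/-- extension by zero -/
def extd (n : ℕ) (v : Fin n → ZMod 2) : Om :=
  fun k => if hk : 0 ≤ k ∧ k < n then v ⟨k.toNat, by omega⟩ else 0

theorem extd_add (n : ℕ) (v w : Fin n → ZMod 2) : extd n (v + w) = extd n v + extd n w := by
  funext k
  by_cases hk : 0 ≤ k ∧ k < n
  · simp [extd, hk]
  · simp [extd, hk]

theorem extd_cr (n : ℕ) (v : Fin n → ZMod 2) : extd n v * cr n = extd n v := by
  funext k
  by_cases hk : 0 ≤ k ∧ k < n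
  · have h1 : k < n := hk.2
    have h2 : ¬ (k < 0) := by omega
    simp [extd, cr, hk, h2]
  · simp [extd, hk]

theorem extd_injective (n : ℕ) : Function.Injective (extd n) := by
  intro v w hvw
  funext i
  have := congrFun hvw (i : ℤ)
  have hk : (0 : ℤ) ≤ ((i : ℕ) : ℤ) ∧ ((i : ℕ) : ℤ) < n := by omega
  simpa [extd, hk] using this

theorem el_extd_injective (n : ℕ) : Function.Injective (fun v => el n (extd n v)) := by
  intro v w hvw
  have := congrArg Lam.pat hvw
  simp only [pat_el, extd_cr] at this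
  exact extd_injective n this

/-- `Lam` does not have rapid decay. -/
theorem not_rd_Lam : ¬ (∃ C : ℝ, ∃ k : ℕ, ∀ r : ℕ, ∀ f g : Lam →₀ ℂ,
      (∀ x ∈ f.support, Bl SL r x) →
      ∀ U : Finset Lam, ∑ x ∈ U, ‖∑ y ∈ f.support, f y * g (y⁻¹ * x)‖ ^ 2 ≤
        C * ((r : ℝ) + 1) ^ k * (∑ y ∈ f.support, ‖f y‖ ^ 2) *
          (∑ z ∈ g.support, ‖g z‖ ^ 2)) := by
  classical
  rintro ⟨C, k, hC⟩
  have main : ∀ n : ℕ, (2 : ℝ) ^ n ≤ C * ((2 * n : ℝ) + 1) ^ k := by
    intro n
    set E : Finset Lam := Finset.univ.image (fun v : Fin n → ZMod 2 => el n (extd n v)) with hE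
    have hcard : E.card = 2 ^ n := by
      rw [hE, Finset.card_image_of_injective _ (el_extd_injective n)]
      simp [ZMod.card]
    have hmul : ∀ x ∈ E, ∀ y ∈ E, y⁻¹ * x ∈ E := by
      intro x hx y hy
      rw [hE, Finset.mem_image] at hx hy
      obtain ⟨v, -, rfl⟩ := hx
      obtain ⟨w, -, rfl⟩ := hy
      have hinv : (el n (extd n w))⁻¹ = el n (extd n w) := by
        rw [inv_eq_iff_mul_eq_one, el_mul _ _ _ (extd_cr n w), Om_add_self, el_zero]
      rw [hinv, el_mul _ _ _ (extd_cr n w), ← extd_add]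
      exact Finset.mem_image.2 ⟨w + v, Finset.mem_univ _, rfl⟩
    set f : Lam →₀ ℂ := Finsupp.onFinset E (fun x => if x ∈ E then 1 else 0) (by
      intro a ha
      by_contra hcon
      simp [hcon] at ha) with hf
    have hfa : ∀ x, f x = if x ∈ E then 1 else 0 := fun x => rfl
    have hfs : f.support = E := by
      ext x
      rw [Finsupp.mem_support_iff, hfa]
      by_cases hx : x ∈ E <;> simp [hx]
    have hn2 : (∑ y ∈ f.support, ‖f y‖ ^ 2) = (2 : ℝ) ^ n := by
      rw [hfs]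
      have : ∀ y ∈ E, ‖f y‖ ^ 2 = 1 := by
        intro y hy; rw [hfa, if_pos hy]; simp
      rw [Finset.sum_congr rfl this, Finset.sum_const, hcard]
      simp
    have h1 := hC (n + n) f f (by
      intro x hx
      rw [hfs, hE, Finset.mem_image] at hx
      obtain ⟨v, -, rfl⟩ := hx
      exact ball_el n _) E
    have h2 : ∑ x ∈ E, ‖∑ y ∈ f.support, f y * f (y⁻¹ * x)‖ ^ 2 = (2 : ℝ) ^ n * ((2 : ℝ) ^ n) ^ 2 := by
      have : ∀ x ∈ E, ‖∑ y ∈ f.support, f y * f (y⁻¹ * x)‖ ^ 2 = ((2 : ℝ) ^ n) ^ 2 := by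
        intro x hx
        have e : ∑ y ∈ f.support, f y * f (y⁻¹ * x) = (2 : ℂ) ^ n := by
          rw [hfs]
          have : ∀ y ∈ E, f y * f (y⁻¹ * x) = 1 := by
            intro y hy
            rw [hfa, hfa, if_pos hy, if_pos (hmul x hx y hy)]; simp
          rw [Finset.sum_congr rfl this, Finset.sum_const, hcard]
          simp
        rw [e]; simp
      rw [Finset.sum_congr rfl this, Finset.sum_const, hcard]
      simp
    rw [h2, hn2] at h1
    have hp : (0 : ℝ) < (2 : ℝ) ^ n := by positivity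
    have h3 : (2 : ℝ) ^ n * ((2 : ℝ) ^ n) ^ 2 ≤
        (C * ((2 * n : ℝ) + 1) ^ k) * ((2 : ℝ) ^ n) ^ 2 := by
      calc _ ≤ C * (((n + n : ℕ) : ℝ) + 1) ^ k * 2 ^ n * 2 ^ n := h1
        _ = _ := by push_cast; ring
    exact le_of_mul_le_mul_right h3 (by positivity)
  -- exponential beats polynomial
  have h0 : 0 < C := by
    have := main 0
    norm_num at this
    linarith
  have hlim := tendsto_pow_const_div_const_pow_of_one_lt k (r := (2 : ℝ)) (by norm_num)
  have hev := hlim.eventually (gt_mem_nhds (show (0 : ℝ) < 1 / (C * 3 ^ k + 1) by positivity))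
  obtain ⟨n, hn, hn1⟩ := (hev.and (Filter.eventually_ge_atTop 1)).exists
  have hn1' : (1 : ℝ) ≤ n := by exact_mod_cast hn1
  have h4 : ((2 * n : ℝ) + 1) ^ k ≤ 3 ^ k * (n : ℝ) ^ k := by
    rw [← mul_pow]
    exact pow_le_pow_left₀ (by positivity) (by linarith) k
  have h5 := main n
  have h6 : (2 : ℝ) ^ n ≤ C * (3 ^ k * (n : ℝ) ^ k) :=
    h5.trans (mul_le_mul_of_nonneg_left h4 h0.le)
  rw [div_lt_div_iff₀ (by positivity) (by positivity), one_mul] at hn
  nlinarith [pow_pos (show (0 : ℝ) < n by linarith) k]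

end RDQI
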